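import Pool.Agent.Work.MP_4bd310_co.Graph

set_option autoImplicit false
set_option linter.unusedSectionVars false
set_option linter.unusedVariables false
set_option linter.unusedSimpArgs false

namespace Pool.Agent.Work.MP_4bd310_co

open Finset

section Step1

variable {V : Type*} {G : SimpleGraph V} [DecidableEq V] [Fintype V] {T : RT V} (C : Compat G T)
  {a b : V} (h : T.Cfg a b)
  {eG : V → ℕ} (he1 : ∀ u v, G.dist u v ≤ eG u) (he2 : ∀ u, T.dep a ≤ eG u)

lemma dl_comm (u v : V) : dl G T u v = dl G T v u := by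
  unfold dl
  rw [T.D_comm, SimpleGraph.dist_comm]

include C h he1 he2 in
lemma step1 :
    (∑ u, ∑ v, (G.dist u v : ℤ)) - 2 * ∑ u, (eG u : ℤ) ≤ T.F2 a b univ ∧
    ((∀ u, u ∈ T.S0 a b) → (∃ x y, inA T a x ∧ ¬ inA T a y ∧ G.Adj x y ∧ 1 ≤ T.dep y) →
      (∑ u, ∑ v, (G.dist u v : ℤ)) - 2 * ∑ u, (eG u : ℤ) + 2 ≤ T.F2 a b univ) := by
  have hcore := core C h he1 he2
  set A := univ.filter (fun u => inA T a u) with hA
  set B := univ.filter (fun u => ¬ inA T a u) with hB
  have haA : a ∈ A := by
    rw [hA, mem_filter]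
    exact ⟨mem_univ _, rfl⟩
  have hbB : b ∈ B := by
    rw [hB, mem_filter]
    exact ⟨mem_univ _, fun (hh : T.anc b 1 = T.anc a 1) => h.hab hh.symm⟩
  -- cross sum
  have hX : ∑ u ∈ A, ∑ v ∈ B, dl G T u v = dl G T a b + ∑ v ∈ B.erase b, dl G T a v
      + ∑ u ∈ A.erase a, dl G T u b + ∑ u ∈ A.erase a, ∑ v ∈ B.erase b, dl G T u v := by
    rw [← add_sum_erase A _ haA]
    have h1 : ∀ u ∈ A.erase a, ∑ v ∈ B, dl G T u v = dl G T u b + ∑ v ∈ B.erase b, dl G T u v := by
      intro u _
      rw [← add_sum_erase B _ hbB]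
    rw [sum_congr rfl h1, sum_add_distrib, ← add_sum_erase B _ hbB]
    ring
  have hL : ∑ u, loss eG T a b u = loss eG T a b a + loss eG T a b b
      + ∑ v ∈ B.erase b, loss eG T a b v + ∑ u ∈ A.erase a, loss eG T a b u := by
    rw [← sum_filter_add_sum_filter_not univ (fun u => inA T a u), ← hA, ← hB,
      ← add_sum_erase A _ haA, ← add_sum_erase B _ hbB]
    ring
  have hT : 2 * ∑ u ∈ A, ∑ v ∈ B, dl G T u v ≤ ∑ u, ∑ v, dl G T u v := by
    have h1 : ∑ u, ∑ v, dl G T u v = ∑ u ∈ A, (∑ v ∈ A, dl G T u v + ∑ v ∈ B, dl G T u v)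
        + ∑ u ∈ B, (∑ v ∈ A, dl G T u v + ∑ v ∈ B, dl G T u v) := by
      rw [← sum_filter_add_sum_filter_not univ (fun u => inA T a u), ← hA, ← hB]
      congr 1
      · apply sum_congr rfl
        intro u _
        rw [← sum_filter_add_sum_filter_not univ (fun u => inA T a u)]
      · apply sum_congr rfl
        intro u _
        rw [← sum_filter_add_sum_filter_not univ (fun u => inA T a u)]
    rw [h1, sum_add_distrib, sum_add_distrib]
    have h2 : ∑ u ∈ B, ∑ v ∈ A, dl G T u v = ∑ u ∈ A, ∑ v ∈ B, dl G T u v := by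
      rw [sum_comm]
      apply sum_congr rfl
      intro u _
      apply sum_congr rfl
      intro v _
      exact dl_comm v u
    have h3 : 0 ≤ ∑ u ∈ A, ∑ v ∈ A, dl G T u v :=
      sum_nonneg (fun u _ => sum_nonneg (fun v _ => dl_nonneg C u v))
    have h4 : 0 ≤ ∑ u ∈ B, ∑ v ∈ B, dl G T u v :=
      sum_nonneg (fun u _ => sum_nonneg (fun v _ => dl_nonneg C u v))
    rw [h2]
    linarith
  have hdl : ∑ u, ∑ v, dl G T u v = ∑ u, ∑ v, T.D u v - ∑ u, ∑ v, (G.dist u v : ℤ) := by
    simp only [dl, sum_sub_distrib]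
  have hls : ∑ u, loss eG T a b u = ∑ u, T.ecc a b u - ∑ u, (eG u : ℤ) := by
    simp only [loss, sum_sub_distrib]
  have e1 : ∑ v ∈ B.erase b, (dl G T a v - loss eG T a b v)
      = ∑ v ∈ B.erase b, dl G T a v - ∑ v ∈ B.erase b, loss eG T a b v := sum_sub_distrib _ _
  have e2 : ∑ u ∈ A.erase a, (dl G T u b - loss eG T a b u)
      = ∑ u ∈ A.erase a, dl G T u b - ∑ u ∈ A.erase a, loss eG T a b u := sum_sub_distrib _ _
  unfold RT.F2
  rw [e1, e2] at hcore
  constructor
  · have := hcore.1
    linarith
  · intro hall hex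
    have := hcore.2 hall hex
    linarith

end Step1

section PathGraph

lemma path_dist_ge {n : ℕ} {i j : Fin n} (p : (SimpleGraph.pathGraph n).Walk i j) :
    |((i : ℕ) : ℤ) - (j : ℕ)| ≤ p.length := by
  induction p with
  | nil => simp
  | @cons u v w hadj q ih =>
    rw [SimpleGraph.Walk.length_cons]
    rw [SimpleGraph.pathGraph_adj] at hadj
    have h1 : |((u : ℕ) : ℤ) - (v : ℕ)| ≤ 1 := by
      rw [abs_le]
      omega
    have h2 := abs_sub_le ((u : ℕ) : ℤ) (v : ℕ) (w : ℕ)
    push_cast
    linarith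

lemma path_dist_le {n : ℕ} (hc : (SimpleGraph.pathGraph n).Connected) (k : ℕ) :
    ∀ i j : Fin n, (i : ℕ) + k = j → (SimpleGraph.pathGraph n).dist i j ≤ k := by
  induction k with
  | zero =>
    intro i j hij
    have : i = j := by
      ext
      omega
    subst this
    simp
  | succ k ih =>
    intro i j hij
    have hlt : (i : ℕ) + 1 < n := by
      have := j.isLt
      omega
    have h1 := ih ⟨(i : ℕ) + 1, hlt⟩ j (by simp; omega)
    have h2 : (SimpleGraph.pathGraph n).Adj i ⟨(i : ℕ) + 1, hlt⟩ := by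
      rw [SimpleGraph.pathGraph_adj]
      left
      rfl
    have h3 := hc.dist_triangle (u := i) (v := ⟨(i : ℕ) + 1, hlt⟩) (w := j)
    rw [SimpleGraph.dist_eq_one_iff_adj.mpr h2] at h3
    omega

lemma path_dist {n : ℕ} (i j : Fin n) :
    ((SimpleGraph.pathGraph n).dist i j : ℤ) = |((i : ℕ) : ℤ) - (j : ℕ)| := by
  have hn : 0 < n := i.pos
  have hc : (SimpleGraph.pathGraph n).Connected := by
    obtain ⟨m, rfl⟩ : ∃ m, n = m + 1 := ⟨n - 1, by omega⟩
    exact SimpleGraph.pathGraph_connected m
  apply le_antisymm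
  · rcases le_total (i : ℕ) (j : ℕ) with h | h
    · have := path_dist_le hc ((j : ℕ) - i) i j (by omega)
      rw [abs_of_nonpos (by omega)]
      omega
    · have := path_dist_le hc ((i : ℕ) - j) j i (by omega)
      rw [SimpleGraph.dist_comm, abs_of_nonneg (by omega)]
      omega
  · obtain ⟨p, hp⟩ := hc.exists_walk_length_eq_dist i j
    rw [← hp]
    exact path_dist_ge p

lemma iso_dist {V W : Type*} {G : SimpleGraph V} {H : SimpleGraph W} (f : G ≃g H)
    (hG : G.Connected) (hH : H.Connected) (u v : V) : H.dist (f u) (f v) = G.dist u v := by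
  apply le_antisymm
  · obtain ⟨p, hp⟩ := hG.exists_walk_length_eq_dist u v
    rw [← hp]
    have := SimpleGraph.dist_le (p.map f.toHom)
    rw [SimpleGraph.Walk.length_map] at this
    exact this
  · obtain ⟨p, hp⟩ := hH.exists_walk_length_eq_dist (f u) (f v)
    rw [← hp]
    have := SimpleGraph.dist_le (p.map f.symm.toHom)
    rw [SimpleGraph.Walk.length_map] at this
    have e1 : f.symm.toHom (f u) = u := f.symm_apply_apply u
    have e2 : f.symm.toHom (f v) = v := f.symm_apply_apply v
    rw [e1, e2] at this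
    exact this

end PathGraph

section Ecc

variable {V : Type*} [Fintype V] {G : SimpleGraph V} (hG : G.Connected)

include hG in
lemma exists_dist_eq_ecc (u : V) : ∃ v, G.dist u v = (G.eccent u).toNat := by
  obtain ⟨v, hv⟩ := G.exists_edist_eq_eccent_of_finite u
  refine ⟨v, ?_⟩
  rw [← hv]
  rfl

include hG in
lemma ecc_ne_top (u : V) : G.eccent u ≠ ⊤ := by
  obtain ⟨v, hv⟩ := G.exists_edist_eq_eccent_of_finite u
  rw [← hv, SimpleGraph.edist_ne_top_iff_reachable]
  exact hG u v

include hG in
lemma dist_le_ecc (u v : V) : G.dist u v ≤ (G.eccent u).toNat := by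
  have h1 : G.edist u v ≤ G.eccent u := SimpleGraph.edist_le_eccent
  have h2 := ecc_ne_top hG u
  exact ENat.toNat_le_toNat h1 h2

include hG in
lemma rad_le_ecc (u : V) : (G.radius).toNat ≤ (G.eccent u).toNat := by
  have h1 : G.radius ≤ G.eccent u := SimpleGraph.radius_le_eccent
  exact ENat.toNat_le_toNat h1 (ecc_ne_top hG u)

end Ecc

section Config

variable {V : Type*} [Fintype V] [DecidableEq V] {G : SimpleGraph V} (hG : G.Connected)

include hG in
lemma exists_cfg (hr : 4 ≤ (G.radius).toNat) : ∃ (T : RT V) (a b : V), Compat G T ∧ T.Cfg a b ∧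
    T.dep a = (G.radius).toNat := by
  have : Nonempty V := hG.nonempty
  obtain ⟨c, hc⟩ := G.exists_eccent_eq_radius
  set T := bfs hG c with hT
  have C : Compat G T := bfs_compat hG c
  have hdep : ∀ u, T.dep u = G.dist c u := fun u => rfl
  have hTc : T.c = c := rfl
  set r := (G.radius).toNat with hrdef
  have hle : ∀ u, T.dep u ≤ r := by
    intro u
    rw [hdep, hrdef, ← hc]
    exact dist_le_ecc hG c u
  obtain ⟨a, ha⟩ := exists_dist_eq_ecc hG c
  rw [hc] at ha
  have hda : T.dep a = r := ha
  by_cases hcase : ∃ b, T.anc b 1 ≠ T.anc a 1 ∧ T.dep b = r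
  · obtain ⟨b, hb1, hb2⟩ := hcase
    refine ⟨T, a, b, C, ?_, hda⟩
    constructor
    · omega
    · exact hb1.symm
    · intro u; rw [hda]; exact hle u
    · intro u _; rw [hb2]; exact hle u
    · omega
    · omega
  · push Not at hcase
    obtain ⟨b, hb⟩ := exists_dist_eq_ecc hG (T.anc a 1)
    have h1 := rad_le_ecc hG (T.anc a 1)
    rw [← hb] at h1
    have hd1 : T.dep (T.anc a 1) = 1 := T.dep_anc (by omega)
    have hbA : T.anc b 1 ≠ T.anc a 1 := by
      intro hh
      have h2 := C.dist_anc b 1
      rw [hh, SimpleGraph.dist_comm] at h2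
      have h3 := hle b
      omega
    have hb3 := hcase b hbA
    have hb4 := hle b
    have hb5 := C.dist_le_D (T.anc a 1) b
    have hb6 := T.D_le_add (T.anc a 1) b
    rw [hd1] at hb6
    have hb7 : T.dep b + 1 = r := by omega
    refine ⟨T, a, b, C, ?_, hda⟩
    constructor
    · omega
    · exact hbA.symm
    · intro u; rw [hda]; exact hle u
    · intro u hu
      have h2 := hcase u hu
      have h3 := hle u
      omega
    · omega
    · omega

end Config

section Iso

variable {V : Type*} [Fintype V] [DecidableEq V] {G : SimpleGraph V} {T : RT V}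
  (C : Compat G T) {a b : V} (h : T.Cfg a b)

include C h in
lemma ch_adj {i : ℕ} (hi : i + 1 ≤ T.dep a + T.dep b) : G.Adj (T.ch a b i) (T.ch a b (i + 1)) := by
  by_cases h1 : i < T.dep a
  · -- parent of ch i is ch (i+1)
    have h2 : T.par (T.ch a b i) = T.ch a b (i + 1) := by
      unfold RT.ch
      rw [if_pos h1]
      have h3 := T.par_anc (u := a) (i := T.dep a - i - 1) (by omega)
      have h4 : T.dep a - i - 1 + 1 = T.dep a - i := by omega
      rw [h4] at h3
      rw [h3]
      by_cases h5 : i + 1 < T.dep a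
      · rw [if_pos h5]
        congr 1
      · rw [if_neg h5]
        have h6 : T.dep a - i - 1 = 0 := by omega
        have h7 : i + 1 - T.dep a = 0 := by omega
        rw [h6, h7, RT.anc_zero, RT.anc_zero]
    rw [← h2]
    apply C.adj
    intro hc
    have h3 := h.dep_ch (i := i) (by omega)
    rw [hc, T.dep_c, if_pos h1] at h3
    omega
  · have h2 : T.par (T.ch a b (i + 1)) = T.ch a b i := by
      unfold RT.ch
      rw [if_neg h1, if_neg (by omega)]
      have h3 := T.par_anc (u := b) (i := i - T.dep a) (by omega)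
      have h4 : i - T.dep a + 1 = i + 1 - T.dep a := by omega
      rw [h4] at h3
      exact h3
    rw [← h2]
    apply SimpleGraph.Adj.symm
    apply C.adj
    intro hc
    have h3 := h.dep_ch (i := i + 1) (by omega)
    rw [hc, T.dep_c, if_neg (by omega)] at h3
    omega

include C h in
lemma ch_not_adj (hno : ¬ ∃ x y, inA T a x ∧ ¬ inA T a y ∧ G.Adj x y ∧ 1 ≤ T.dep y)
    {i j : ℕ} (hij : i < j) (hj : j ≤ T.dep a + T.dep b)
    (hadj : G.Adj (T.ch a b i) (T.ch a b j)) : j = i + 1 := by
  have h1 := C.dep_le_of_adj hadj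
  have h2 := C.dep_le_of_adj hadj.symm
  have h3 := h.dep_ch (i := i) (by omega)
  have h4 := h.dep_ch (i := j) (by omega)
  have h5 := h.ch_inA (i := i) (by omega)
  have h6 := h.ch_inA (i := j) (by omega)
  rw [h3, h4] at h1 h2
  by_cases hi : i < T.dep a
  · by_cases hj' : j < T.dep a
    · simp only [hi, hj', if_true] at h1 h2
      omega
    · simp only [hi, hj', if_true, if_false] at h1 h2 h4
      by_contra hcon
      apply hno
      refine ⟨T.ch a b i, T.ch a b j, h5.mpr hi, ?_, hadj, ?_⟩
      · exact fun hh => hj' (h6.mp hh)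
      · rw [h4]
        rcases Nat.lt_or_ge (T.dep a) j with h7 | h7
        · omega
        · exfalso
          have : j = T.dep a := by omega
          omega
  · have hj' : ¬ j < T.dep a := by omega
    simp only [hi, hj', if_false] at h1 h2
    omega

include C h in
lemma iso_of_all (hall : ∀ u, u ∈ T.S0 a b)
    (hno : ¬ ∃ x y, inA T a x ∧ ¬ inA T a y ∧ G.Adj x y ∧ 1 ≤ T.dep y) :
    Nonempty (G ≃g SimpleGraph.pathGraph (Fintype.card V)) := by
  have hcard : Fintype.card V = T.dep a + T.dep b + 1 := by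
    rw [← h.card_S0, ← card_univ]
    congr 1
    ext u
    simp [hall u]
  rw [hcard]
  let f : Fin (T.dep a + T.dep b + 1) → V := fun i => T.ch a b i
  have hinj : Function.Injective f := by
    intro i j hij
    have := h.ch_inj (by rw [mem_coe, mem_range]; exact i.isLt)
      (by rw [mem_coe, mem_range]; exact j.isLt) hij
    ext
    exact this
  have hbij : Function.Bijective f := by
    rw [Fintype.bijective_iff_injective_and_card]
    refine ⟨hinj, ?_⟩
    rw [Fintype.card_fin, hcard]
  let e := Equiv.ofBijective f hbij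
  have key : ∀ i j : Fin (T.dep a + T.dep b + 1), G.Adj (e i) (e j) ↔
      (SimpleGraph.pathGraph (T.dep a + T.dep b + 1)).Adj i j := by
    have ei : ∀ i, e i = T.ch a b i := fun i => rfl
    intro i j
    rw [SimpleGraph.pathGraph_adj, ei, ei]
    have hi := i.isLt
    have hj := j.isLt
    constructor
    · intro hadj
      rcases lt_trichotomy (i : ℕ) (j : ℕ) with hlt | heq | hgt
      · left
        exact (ch_not_adj C h hno hlt (by omega) hadj).symm
      · rw [heq] at hadj
        exact absurd hadj (SimpleGraph.irrefl _)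
      · right
        exact (ch_not_adj C h hno hgt (by omega) hadj.symm).symm
    · rintro (hh | hh)
      · rw [← hh]
        exact ch_adj C h (by omega)
      · rw [← hh]
        exact (ch_adj C h (by omega)).symm
  exact ⟨{ toEquiv := e.symm
           map_rel_iff' := by
            intro x y
            have := key (e.symm x) (e.symm y)
            rw [e.apply_symm_apply, e.apply_symm_apply] at this
            exact this.symm }⟩

end Iso

end Pool.Agent.Work.MP_4bd310_co
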