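import Pool.Agent.Work.MP_4bd310_co.Tree2

set_option autoImplicit false
set_option linter.unusedSectionVars false
set_option linter.unusedVariables false
set_option linter.unusedSimpArgs false

namespace Pool.Agent.Work.MP_4bd310_co

open Finset

variable {V : Type*} {G : SimpleGraph V}

lemma exists_parent (hG : G.Connected) (c u : V) (h : u ≠ c) :
    ∃ w, G.Adj u w ∧ G.dist c w = G.dist c u - 1 := by
  obtain ⟨p, hp⟩ := hG.exists_walk_length_eq_dist u c
  cases p with
  | nil => exact absurd rfl h
  | @cons _ w _ hadj q =>
    refine ⟨w, hadj, ?_⟩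
    rw [SimpleGraph.Walk.length_cons] at hp
    have h1 : G.dist w c ≤ q.length := SimpleGraph.dist_le q
    have h2 : G.dist u c ≤ G.dist u w + G.dist w c := hG.dist_triangle
    have h3 : G.dist u w = 1 := SimpleGraph.dist_eq_one_iff_adj.mpr hadj
    rw [SimpleGraph.dist_comm (u := c) (v := w), SimpleGraph.dist_comm (u := c) (v := u)]
    omega

/-- the breadth-first tree -/
noncomputable def bfs (hG : G.Connected) (c : V) : RT V where
  dep u := G.dist c u
  par u := by
    classical
    exact if h : u = c then c else (exists_parent hG c u h).choose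
  c := c
  dep_c := SimpleGraph.dist_self
  eq_c u h := by
    rw [hG.dist_eq_zero_iff] at h
    exact h.symm
  dep_par u := by
    classical
    by_cases h : u = c
    · subst h
      simp
    · simp only [h, dite_false]
      exact (exists_parent hG c u h).choose_spec.2

lemma bfs_adj (hG : G.Connected) (c : V) {u : V} (h : u ≠ c) : G.Adj u ((bfs hG c).par u) := by
  classical
  unfold bfs
  simp only [h, dite_false]
  exact (exists_parent hG c u h).choose_spec.1

lemma bfs_dep (hG : G.Connected) (c u : V) : (bfs hG c).dep u = G.dist c u := rfl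

lemma bfs_c (hG : G.Connected) (c : V) : (bfs hG c).c = c := rfl

/-- compatibility of a rooted tree with a graph -/
structure Compat (G : SimpleGraph V) (T : RT V) : Prop where
  conn : G.Connected
  dep_eq : ∀ u, T.dep u = G.dist T.c u
  adj : ∀ u, u ≠ T.c → G.Adj u (T.par u)

lemma bfs_compat (hG : G.Connected) (c : V) : Compat G (bfs hG c) where
  conn := hG
  dep_eq _ := rfl
  adj _ h := bfs_adj hG c h

namespace Compat

variable {T : RT V} (C : Compat G T)
include C

lemma dist_par (u : V) : G.dist u (T.par u) ≤ 1 := by
  by_cases h : u = T.c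
  · subst h
    rw [T.par_c]
    simp
  · exact (SimpleGraph.dist_eq_one_iff_adj.mpr (C.adj u h)).le

lemma dist_iter (k : ℕ) (u : V) : G.dist u (T.par^[k] u) ≤ k := by
  induction k generalizing u with
  | zero => simp
  | succ k ih =>
    rw [Function.iterate_succ_apply]
    have h1 := C.conn.dist_triangle (u := u) (v := T.par u) (w := T.par^[k] (T.par u))
    have h2 := ih (T.par u)
    have h3 := C.dist_par u
    omega

lemma dist_anc (u : V) (i : ℕ) : G.dist u (T.anc u i) ≤ T.dep u - i := C.dist_iter _ _

lemma dist_le_D [DecidableEq V] (u v : V) : (G.dist u v : ℤ) ≤ T.D u v := by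
  have h1 := C.dist_anc u (T.m u v)
  have h2 := C.dist_anc v (T.m u v)
  have h3 := T.m_spec u v
  have h4 := C.conn.dist_triangle (u := u) (v := T.anc u (T.m u v)) (w := v)
  rw [h3, SimpleGraph.dist_comm (u := T.anc v (T.m u v)) (v := v)] at h4
  rw [h3] at h1
  have h5 := T.m_le_left u v
  have h6 := T.m_le_right u v
  unfold RT.D
  omega

lemma dep_le_of_adj {u v : V} (h : G.Adj u v) : T.dep u ≤ T.dep v + 1 := by
  rw [C.dep_eq, C.dep_eq]
  have h1 := C.conn.dist_triangle (u := T.c) (v := v) (w := u)
  have h2 := SimpleGraph.dist_eq_one_iff_adj.mpr h.symm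
  omega

end Compat

lemma exists_cross (hG : G.Connected) (P : V → Prop) (b : V) (hb : ¬ P b) :
    ∀ (n : ℕ) (a : V), P a → G.dist a b = n →
    ∃ z z', P z ∧ ¬ P z' ∧ G.Adj z z' ∧ G.dist a z + 1 + G.dist z' b ≤ G.dist a b := by
  intro n
  induction n with
  | zero =>
    intro a ha hd
    rw [hG.dist_eq_zero_iff] at hd
    subst hd
    exact absurd ha hb
  | succ n ih =>
    intro a ha hd
    have hne : a ≠ b := by
      rintro rfl
      simp at hd
    obtain ⟨y, hy1, hy2⟩ := exists_parent hG b a hne
    rw [SimpleGraph.dist_comm (u := b) (v := y), SimpleGraph.dist_comm (u := b) (v := a)] at hy2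
    by_cases hP : P y
    · obtain ⟨z, z', hz, hz', hadj, hle⟩ := ih y hP (by omega)
      refine ⟨z, z', hz, hz', hadj, ?_⟩
      have h1 := hG.dist_triangle (u := a) (v := y) (w := z)
      have h2 := SimpleGraph.dist_eq_one_iff_adj.mpr hy1
      omega
    · refine ⟨a, y, ha, hP, hy1, ?_⟩
      rw [SimpleGraph.dist_self]
      omega

section Core

variable [DecidableEq V] [Fintype V] {T : RT V} (C : Compat G T) {a b : V} (h : T.Cfg a b)

/-- membership in the branch of a -/
def inA (T : RT V) (a u : V) : Prop := T.anc u 1 = T.anc a 1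

instance (T : RT V) (a : V) : DecidablePred (inA T a) := fun u => by
  unfold inA; infer_instance

include h in
lemma dep_pos_of_inA {u : V} (hu : inA T a u) : 1 ≤ T.dep u := by
  by_contra hcon
  have h0 : T.dep u = 0 := by omega
  have := T.eq_c u h0
  subst this
  exact h.c_notA hu

lemma D_cross {u v : V} (hu : inA T a u) (hv : ¬ inA T a v) : T.D u v = T.dep u + T.dep v := by
  have h0 : T.m u v = 0 := by
    by_contra hcon
    have h1 := T.anc_eq_of_le_m (u := u) (v := v) (i := 1) (by omega)
    exact hv (h1.symm.trans hu)
  unfold RT.D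
  rw [h0]
  simp

/-- excess of tree distance over graph distance -/
noncomputable def dl (G : SimpleGraph V) (T : RT V) (u v : V) : ℤ := T.D u v - G.dist u v

include C in
lemma dl_nonneg (u v : V) : 0 ≤ dl G T u v := by
  have := C.dist_le_D u v
  unfold dl
  omega

/-- loss of eccentricity -/
noncomputable def loss (eG : V → ℕ) (T : RT V) (a b u : V) : ℤ := T.ecc a b u - eG u

variable {eG : V → ℕ} (he1 : ∀ u v, G.dist u v ≤ eG u) (he2 : ∀ u, T.dep a ≤ eG u)

lemma ecc_A {u : V} (hu : inA T a u) : T.ecc a b u = T.dep u + T.dep b := by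
  unfold RT.ecc
  unfold inA at hu
  rw [if_pos hu]

lemma ecc_B {u : V} (hu : ¬ inA T a u) : T.ecc a b u = T.dep u + T.dep a := by
  unfold RT.ecc
  unfold inA at hu
  rw [if_neg hu]

include he1 h in
lemma loss_A {u : V} (hu : inA T a u) : loss eG T a b u ≤ dl G T u b := by
  unfold loss dl
  rw [ecc_A hu, D_cross hu (fun hh => h.hab hh.symm)]
  have := he1 u b
  omega

include he2 in
lemma loss_A' {u : V} (hu : inA T a u) :
    loss eG T a b u ≤ T.dep u + T.dep b - T.dep a := by
  unfold loss
  rw [ecc_A hu]
  have := he2 u
  omega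

include he1 in
lemma loss_B {u : V} (hu : ¬ inA T a u) : loss eG T a b u ≤ dl G T a u := by
  unfold loss dl
  rw [ecc_B hu, D_cross (rfl : inA T a a) hu]
  have := he1 u a
  rw [SimpleGraph.dist_comm] at this
  omega

include he2 in
lemma loss_B' {u : V} (hu : ¬ inA T a u) : loss eG T a b u ≤ T.dep u := by
  unfold loss
  rw [ecc_B hu]
  have := he2 u
  omega

lemma pair_le_sum {ι : Type*} [DecidableEq ι] {s : Finset ι} {f : ι → ℤ} (hf : ∀ i ∈ s, 0 ≤ f i)
    {i j : ι} (hi : i ∈ s) (hj : j ∈ s) (hij : i ≠ j) : f i + f j ≤ ∑ x ∈ s, f x := by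
  rw [← sum_pair hij]
  apply sum_le_sum_of_subset_of_nonneg
  · intro x hx
    simp only [mem_insert, mem_singleton] at hx
    rcases hx with rfl | rfl <;> assumption
  · intro x hx _
    exact hf x hx

include C h he1 he2 in
/-- The core comparison. -/
lemma core :
    loss eG T a b a + loss eG T a b b ≤ dl G T a b
      + ∑ v ∈ (univ.filter (fun v => ¬ inA T a v)).erase b, (dl G T a v - loss eG T a b v)
      + ∑ u ∈ (univ.filter (fun u => inA T a u)).erase a, (dl G T u b - loss eG T a b u)
      + ∑ u ∈ (univ.filter (fun u => inA T a u)).erase a,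
          ∑ v ∈ (univ.filter (fun v => ¬ inA T a v)).erase b, dl G T u v ∧
    ((∀ u, u ∈ T.S0 a b) → (∃ x y, inA T a x ∧ ¬ inA T a y ∧ G.Adj x y ∧ 1 ≤ T.dep y) →
      loss eG T a b a + loss eG T a b b + 1 ≤ dl G T a b
      + ∑ v ∈ (univ.filter (fun v => ¬ inA T a v)).erase b, (dl G T a v - loss eG T a b v)
      + ∑ u ∈ (univ.filter (fun u => inA T a u)).erase a, (dl G T u b - loss eG T a b u)
      + ∑ u ∈ (univ.filter (fun u => inA T a u)).erase a,
          ∑ v ∈ (univ.filter (fun v => ¬ inA T a v)).erase b, dl G T u v) := by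
  set A := (univ.filter (fun u => inA T a u)).erase a with hA
  set B := (univ.filter (fun v => ¬ inA T a v)).erase b with hB
  set R1 := ∑ v ∈ B, (dl G T a v - loss eG T a b v) with hR1
  set R2 := ∑ u ∈ A, (dl G T u b - loss eG T a b u) with hR2
  set R3 := ∑ u ∈ A, ∑ v ∈ B, dl G T u v with hR3
  have memA : ∀ u, u ∈ A ↔ u ≠ a ∧ inA T a u := by intro u; simp [hA]
  have memB : ∀ u, u ∈ B ↔ u ≠ b ∧ ¬ inA T a u := by intro u; simp [hB]
  have haA : inA T a a := rfl
  have hbB : ¬ inA T a b := fun hh => h.hab hh.symm
  have n1 : ∀ v ∈ B, 0 ≤ dl G T a v - loss eG T a b v := by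
    intro v hv
    have := loss_B (b := b) he1 ((memB v).mp hv).2
    linarith
  have n2 : ∀ u ∈ A, 0 ≤ dl G T u b - loss eG T a b u := by
    intro v hv
    have := loss_A h he1 ((memA v).mp hv).2
    linarith
  have n3 : ∀ u ∈ A, 0 ≤ ∑ v ∈ B, dl G T u v := by
    intro u _
    exact sum_nonneg (fun v _ => dl_nonneg C u v)
  have R1nn : 0 ≤ R1 := sum_nonneg n1
  have R2nn : 0 ≤ R2 := sum_nonneg n2
  have R3nn : 0 ≤ R3 := sum_nonneg n3
  have R1s : ∀ v, v ≠ b → ¬ inA T a v → dl G T a v - loss eG T a b v ≤ R1 := by
    intro v hv1 hv2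
    exact single_le_sum (f := fun v => dl G T a v - loss eG T a b v) n1 ((memB v).mpr ⟨hv1, hv2⟩)
  have R2s : ∀ u, u ≠ a → inA T a u → dl G T u b - loss eG T a b u ≤ R2 := by
    intro v hv1 hv2
    exact single_le_sum (f := fun u => dl G T u b - loss eG T a b u) n2 ((memA v).mpr ⟨hv1, hv2⟩)
  have rows : ∀ u v, v ≠ b → ¬ inA T a v → dl G T u v ≤ ∑ v ∈ B, dl G T u v := by
    intro u v hv1 hv2
    exact single_le_sum (f := fun v => dl G T u v) (fun i _ => dl_nonneg C u i)
      ((memB v).mpr ⟨hv1, hv2⟩)
  have R3s : ∀ u v, u ≠ a → inA T a u → v ≠ b → ¬ inA T a v → dl G T u v ≤ R3 := by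
    intro u v hu1 hu2 hv1 hv2
    exact (rows u v hv1 hv2).trans
      (single_le_sum (f := fun u => ∑ v ∈ B, dl G T u v) n3 ((memA u).mpr ⟨hu1, hu2⟩))
  have R3d : ∀ u u' v, u ≠ a → inA T a u → u' ≠ a → inA T a u' → u ≠ u' → v ≠ b → ¬ inA T a v →
      dl G T u v + dl G T u' v ≤ R3 := by
    intro u u' v hu1 hu2 hu1' hu2' hne hv1 hv2
    have h1 := pair_le_sum (f := fun u => ∑ v ∈ B, dl G T u v) n3 ((memA u).mpr ⟨hu1, hu2⟩)
      ((memA u').mpr ⟨hu1', hu2'⟩) hne
    have h2 := rows u v hv1 hv2
    have h3 := rows u' v hv1 hv2
    linarith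
  have hr4 := h.h4
  have hle := h.hle
  have hge := h.hge
  have la : loss eG T a b a ≤ dl G T a b := loss_A h he1 haA
  have lb : loss eG T a b b ≤ dl G T a b := loss_B he1 hbB
  have la' := loss_A' (b := b) he2 haA
  have lb' := loss_B' (b := b) he2 hbB
  -- crossing edge
  obtain ⟨z, z', hz, hz', hadj, hgeo⟩ :=
    exists_cross C.conn (inA T a) b hbB _ a haA rfl
  have dzz : (dl G T z z' : ℤ) = T.dep z + T.dep z' - 1 := by
    unfold dl
    rw [D_cross hz hz', SimpleGraph.dist_eq_one_iff_adj.mpr hadj]
    simp
  have dab : (dl G T a b : ℤ) = T.dep a + T.dep b - G.dist a b := by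
    unfold dl
    rw [D_cross haA hbB]
  have hdz : T.dep a ≤ T.dep z + G.dist a z := by
    rw [C.dep_eq, C.dep_eq]
    have := C.conn.dist_triangle (u := T.c) (v := z) (w := a)
    rw [SimpleGraph.dist_comm (u := z) (v := a)] at this
    exact this
  have hdz' : T.dep b ≤ T.dep z' + G.dist z' b := by
    rw [C.dep_eq, C.dep_eq]
    exact C.conn.dist_triangle (u := T.c) (v := z') (w := b)
  have hzz1 := C.dep_le_of_adj hadj
  have hzz2 := C.dep_le_of_adj hadj.symm
  have hge0 : dl G T a b ≤ dl G T z z' := by omega
  -- parents
  have hpa_dep := T.dep_par a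
  have hpb_dep := T.dep_par b
  have hpaA : inA T a (T.par a) := by
    unfold inA
    rw [T.par_eq_anc (by omega), T.anc_anc (by omega) (by omega)]
  have hpbB : ¬ inA T a (T.par b) := by
    unfold inA
    rw [T.par_eq_anc (by omega), T.anc_anc (by omega) (by omega)]
    exact fun hh => h.hab hh.symm
  have hpa_ne : T.par a ≠ a := by
    intro hh
    rw [hh] at hpa_dep
    omega
  have hpb_ne : T.par b ≠ b := by
    intro hh
    rw [hh] at hpb_dep
    omega
  have hpa1 := C.dist_par a
  have hpb1 := C.dist_par b
  by_cases hza : z = a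
  · by_cases hzb : z' = b
    · -- case (4)
      subst hza hzb
      have h1 := R3s (T.par z) (T.par z') hpa_ne hpaA hpb_ne hpbB
      have h2 : (dl G T (T.par z) (T.par z') : ℤ) ≥ T.dep z + T.dep z' - 5 := by
        unfold dl
        rw [D_cross hpaA hpbB]
        have t1 := C.conn.dist_triangle (u := T.par z) (v := z) (w := T.par z')
        have t2 := C.conn.dist_triangle (u := z) (v := z') (w := T.par z')
        rw [SimpleGraph.dist_eq_one_iff_adj.mpr hadj] at t2
        rw [SimpleGraph.dist_comm (u := T.par z) (v := z)] at t1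
        omega
      constructor
      · omega
      · intro _ _
        omega
    · -- case (2)
      subst hza
      have h1 := R1s z' hzb hz'
      have h2 := loss_B' (b := b) he2 hz'
      have h3 := R3s (T.par z) z' hpa_ne hpaA hzb hz'
      have h4 : (dl G T (T.par z) z' : ℤ) ≥ T.dep z + T.dep z' - 3 := by
        unfold dl
        rw [D_cross hpaA hz']
        have t1 := C.conn.dist_triangle (u := T.par z) (v := z) (w := z')
        rw [SimpleGraph.dist_eq_one_iff_adj.mpr hadj] at t1
        rw [SimpleGraph.dist_comm (u := T.par z) (v := z)] at t1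
        omega
      constructor
      · omega
      · intro _ _
        omega
  · by_cases hzb : z' = b
    · -- case (3)
      subst hzb
      have h1 := R2s z hza hz
      have h2 := loss_A' (b := z') he2 hz
      have h3 := R3s z (T.par z') hza hz hpb_ne hpbB
      have h4 : (dl G T z (T.par z') : ℤ) ≥ T.dep z + T.dep z' - 3 := by
        unfold dl
        rw [D_cross hz hpbB]
        have t1 := C.conn.dist_triangle (u := z) (v := z') (w := T.par z')
        rw [SimpleGraph.dist_eq_one_iff_adj.mpr hadj] at t1
        omega
      constructor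
      · omega
      · intro _ _
        omega
    · -- case (1)
      have h1 := R3s z z' hza hz hzb hz'
      constructor
      · omega
      · intro hall hex
        by_cases hD : dl G T a b = 0
        · obtain ⟨x, y, hx, hy, hxy, hy1⟩ := hex
          have dxy : (dl G T x y : ℤ) = T.dep x + T.dep y - 1 := by
            unfold dl
            rw [D_cross hx hy, SimpleGraph.dist_eq_one_iff_adj.mpr hxy]
            simp
          have hx1 := dep_pos_of_inA h hx
          by_cases hxa : x = a
          · by_cases hyb : y = b
            · subst hxa hyb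
              omega
            · subst hxa
              have h2 := R1s y hyb hy
              have h3 := loss_B' (b := b) he2 hy
              omega
          · by_cases hyb : y = b
            · subst hyb
              have h2 := R2s x hxa hx
              have h3 := loss_A' (b := y) he2 hx
              omega
            · have h2 := R3s x y hxa hx hyb hy
              omega
        · have hDpos : 1 ≤ dl G T a b := by
            have := dl_nonneg C a b
            omega
          -- z is on the a-chain
          have hz0 := hall z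
          rw [h.mem_S0] at hz0
          have hz1 := dep_pos_of_inA h hz
          have hza' : T.anc a (T.dep z) = z := by
            rcases hz0 with h2 | h2
            · exact h2
            · exfalso
              apply h.hab
              rw [← (show T.anc z 1 = T.anc a 1 from hz), ← h2]
              rcases le_or_gt (T.dep z) (T.dep b) with h5 | h5
              · exact T.anc_anc hz1 h5
              · rw [T.anc_of_le (u := b) h5.le]
          have hzlt : T.dep z < T.dep a := by
            by_contra hcon
            rw [T.anc_of_le (by omega)] at hza'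
            exact hza hza'.symm
          set x := T.anc a (T.dep z + 1) with hx
          have hxd : T.dep x = T.dep z + 1 := T.dep_anc (by omega)
          have hxp : T.par x = z := by
            rw [hx, T.par_anc (by omega), hza']
          have hxA : inA T a x := by
            unfold inA
            rw [hx]
            exact T.anc_anc (by omega) (by omega)
          have hxz : x ≠ z := by
            intro hh
            rw [hh] at hxd
            omega
          have hdist : G.dist x z' ≤ 2 := by
            have t1 := C.conn.dist_triangle (u := x) (v := z) (w := z')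
            rw [SimpleGraph.dist_eq_one_iff_adj.mpr hadj] at t1
            have t2 := C.dist_par x
            rw [hxp] at t2
            omega
          have hdx : (dl G T x z' : ℤ) ≥ T.dep x + T.dep z' - 2 := by
            unfold dl
            rw [D_cross hxA hz']
            omega
          by_cases hxa : x = a
          · have h2 := R1s z' hzb hz'
            have h3 := loss_B' (b := b) he2 hz'
            rw [hxa] at hdx
            omega
          · have h2 := R3d z x z' hza hz hxa hxA hxz.symm hzb hz'
            omega

end Core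

end Pool.Agent.Work.MP_4bd310_co
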