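import Mathlib

set_option autoImplicit false
set_option linter.unusedSectionVars false
set_option linter.unusedVariables false
set_option linter.unusedSimpArgs false

namespace Pool.Agent.Work.MP_4bd310_co

open Finset

/-- Data of a rooted tree given by a parent map `par`, a depth map `dep` and a root `c`. -/
structure RT (V : Type*) where
  dep : V → ℕ
  par : V → V
  c : V
  dep_c : dep c = 0
  eq_c : ∀ u, dep u = 0 → u = c
  dep_par : ∀ u, dep (par u) = dep u - 1

namespace RT

variable {V : Type*} (T : RT V)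

lemma dep_iter (k : ℕ) (u : V) : T.dep (T.par^[k] u) = T.dep u - k := by
  induction k generalizing u with
  | zero => simp
  | succ k ih =>
    rw [Function.iterate_succ_apply, ih, T.dep_par]
    omega

/-- the ancestor of `u` of depth `i` (it is `u` itself if `dep u ≤ i`). -/
def anc (u : V) (i : ℕ) : V := T.par^[T.dep u - i] u

lemma dep_anc {u : V} {i : ℕ} (h : i ≤ T.dep u) : T.dep (T.anc u i) = i := by
  unfold anc
  rw [dep_iter]
  omega

@[simp] lemma anc_dep (u : V) : T.anc u (T.dep u) = u := by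
  simp [anc]

lemma anc_of_le {u : V} {i : ℕ} (h : T.dep u ≤ i) : T.anc u i = u := by
  unfold anc
  rw [Nat.sub_eq_zero_of_le h]
  rfl

@[simp] lemma anc_zero (u : V) : T.anc u 0 = T.c := by
  apply T.eq_c
  exact T.dep_anc (Nat.zero_le _)

lemma anc_anc {u : V} {i j : ℕ} (hij : i ≤ j) (hj : j ≤ T.dep u) :
    T.anc (T.anc u j) i = T.anc u i := by
  have h1 : T.dep (T.anc u j) = j := T.dep_anc hj
  unfold anc at *
  rw [h1, ← Function.iterate_add_apply]
  congr 1
  omega

lemma par_anc {u : V} {i : ℕ} (h : i + 1 ≤ T.dep u) : T.par (T.anc u (i + 1)) = T.anc u i := by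
  unfold anc
  rw [← Function.iterate_succ_apply' T.par]
  congr 1
  omega

lemma par_c : T.par T.c = T.c := by
  apply T.eq_c
  rw [T.dep_par, T.dep_c]

lemma par_eq_anc {u : V} (h : 1 ≤ T.dep u) : T.par u = T.anc u (T.dep u - 1) := by
  have := T.par_anc (u := u) (i := T.dep u - 1) (by omega)
  rw [← this]
  have h2 : T.dep u - 1 + 1 = T.dep u := by omega
  rw [h2, anc_dep]

section meet
variable [DecidableEq V]

/-- depth of the meet -/
def m (u v : V) : ℕ := Nat.findGreatest (fun i => T.anc u i = T.anc v i) (min (T.dep u) (T.dep v))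

lemma m_le_left (u v : V) : T.m u v ≤ T.dep u :=
  (Nat.findGreatest_le _).trans (min_le_left _ _)

lemma m_le_right (u v : V) : T.m u v ≤ T.dep v :=
  (Nat.findGreatest_le _).trans (min_le_right _ _)

lemma m_spec (u v : V) : T.anc u (T.m u v) = T.anc v (T.m u v) := by
  unfold m
  exact Nat.findGreatest_spec (P := fun i => T.anc u i = T.anc v i) (m := 0) (Nat.zero_le _)
    (by simp)

lemma le_m {u v : V} {i : ℕ} (hu : i ≤ T.dep u) (hv : i ≤ T.dep v) (h : T.anc u i = T.anc v i) :
    i ≤ T.m u v :=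
  Nat.le_findGreatest (le_min hu hv) h

lemma anc_eq_of_le_m {u v : V} {i : ℕ} (h : i ≤ T.m u v) : T.anc u i = T.anc v i := by
  have h1 := T.m_spec u v
  rw [← T.anc_anc h (T.m_le_left u v), ← T.anc_anc h (T.m_le_right u v), h1]

lemma m_comm (u v : V) : T.m u v = T.m v u := by
  unfold m
  rw [min_comm]
  congr 1
  ext i
  exact eq_comm

/-- tree distance, as an integer -/
def D (u v : V) : ℤ := (T.dep u : ℤ) + T.dep v - 2 * T.m u v

lemma D_comm (u v : V) : T.D u v = T.D v u := by
  unfold D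
  rw [T.m_comm u v]
  ring

lemma D_self (u : V) : T.D u u = 0 := by
  have h1 : T.m u u = T.dep u :=
    le_antisymm (T.m_le_left u u) (T.le_m le_rfl le_rfl rfl)
  unfold D
  rw [h1]
  ring

lemma D_nonneg (u v : V) : 0 ≤ T.D u v := by
  have h1 := T.m_le_left u v
  have h2 := T.m_le_right u v
  unfold D
  omega

lemma D_le_add (u v : V) : T.D u v ≤ T.dep u + T.dep v := by
  unfold D
  omega

lemma D_anc_self {u : V} {i : ℕ} (h : i ≤ T.dep u) : T.D u (T.anc u i) = T.dep u - i := by
  have h1 : T.dep (T.anc u i) = i := T.dep_anc h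
  have h2 : T.m u (T.anc u i) = i := by
    apply le_antisymm
    · have := T.m_le_right u (T.anc u i)
      omega
    · apply T.le_m h (by omega)
      rw [T.anc_anc le_rfl h]
  unfold D
  rw [h1, h2]
  ring

/-- distance to elements of another chain -/
lemma D_anc_le {l p : V} {i q : ℕ} (hi : i ≤ T.dep p) (hq : q = T.m l p) (hqi : q ≤ i) :
    T.D l (T.anc p i) ≤ T.dep l + i - 2 * q := by
  have h1 : T.dep (T.anc p i) = i := T.dep_anc hi
  have h2 : q ≤ T.m l (T.anc p i) := by
    apply T.le_m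
    · rw [hq]; exact T.m_le_left l p
    · rw [h1]; exact hqi
    · rw [T.anc_anc hqi hi, hq]
      exact T.m_spec l p
  unfold D
  rw [h1]
  omega

lemma D_anc_le' {l p : V} {i : ℕ} (hi : i ≤ T.dep p) :
    T.D l (T.anc p i) ≤ T.dep l + i := by
  have h1 : T.dep (T.anc p i) = i := T.dep_anc hi
  unfold D
  rw [h1]
  omega

end meet

end RT

lemma sum_range_int (n : ℕ) : 2 * ∑ i ∈ range (n + 1), (i : ℤ) = n * (n + 1) := by
  induction n with
  | zero => simp
  | succ n ih =>
    rw [sum_range_succ, mul_add, ih]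
    push_cast
    ring

lemma sum_Ioc_int (q n : ℕ) (h : q ≤ n) (s : ℤ) :
    2 * ∑ i ∈ Ioc q n, (s + (i : ℤ)) = (n - q) * (2 * s + n + q + 1) := by
  induction n, h using Nat.le_induction with
  | base => simp
  | succ n hn ih =>
    have : Ioc q (n + 1) = insert (n + 1) (Ioc q n) := by
      ext x
      simp only [mem_Ioc, mem_insert]
      omega
    rw [this, sum_insert (by simp), mul_add, ih]
    push_cast
    ring

namespace RT

variable {V : Type*} (T : RT V) [DecidableEq V]

/-- the numeric inequality -/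
lemma numeric (x y h : ℤ) (hx : 1 ≤ x) (hy : 4 ≤ y) (hxy : 7 ≤ x + y) (hhx : h ≤ x) :
    h + 3 * x + y + 1 < 2 * x * y := by
  rcases le_or_gt x 1 with h1 | h1
  · have : x = 1 := by omega
    subst this
    linarith
  · nlinarith

/-- The main estimate: sum of tree distances from `l`. -/
lemma sum_D_le (S : Finset V) (l p p' : V) (e : ℤ) (hlS : ∀ i, i ≤ T.dep l → T.anc l i ∈ S)
    (hpS : ∀ i, i ≤ T.dep p → T.anc p i ∈ S) (hp'S : ∀ i, i ≤ T.dep p' → T.anc p' i ∈ S)
    (hpp : T.anc p 1 ≠ T.anc p' 1) (hlp : T.anc l 1 ≠ T.anc p' 1)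
    (hq : T.m l p < T.dep l) (hq' : T.m l p < T.dep p) (hlp2 : T.dep l ≤ T.dep p)
    (hp'1 : 1 ≤ T.dep p')
    (he : ∀ u ∈ S, T.D l u ≤ e) (he2 : e = T.dep l + T.dep p')
    (h4 : 4 ≤ T.dep p' + T.m l p) (h7 : 7 ≤ T.dep p + T.dep p') :
    2 * (∑ u ∈ S, T.D l u - e) < (S.card : ℤ) ^ 2 - 4 * S.card + 2 := by
  set q := T.m l p with hqdef
  set t := T.dep l with ht
  set r1 := T.dep p with hr1
  set r2 := T.dep p' with hr2
  set I1 : Finset V := (range (t + 1)).image (T.anc l) with hI1
  set I2 : Finset V := (Ioc q r1).image (T.anc p) with hI2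
  set I3 : Finset V := (Ioc 0 r2).image (T.anc p') with hI3
  have inj1 : Set.InjOn (T.anc l) (range (t + 1) : Finset ℕ) := by
    intro i hi j hj hij
    simp only [coe_range, Set.mem_Iio] at hi hj
    have h1 := T.dep_anc (u := l) (i := i) (by omega)
    have h2 := T.dep_anc (u := l) (i := j) (by omega)
    rw [hij] at h1
    omega
  have inj2 : Set.InjOn (T.anc p) (Ioc q r1 : Finset ℕ) := by
    intro i hi j hj hij
    simp only [coe_Ioc, Set.mem_Ioc] at hi hj
    have h1 := T.dep_anc (u := p) (i := i) (by omega)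
    have h2 := T.dep_anc (u := p) (i := j) (by omega)
    rw [hij] at h1
    omega
  have inj3 : Set.InjOn (T.anc p') (Ioc 0 r2 : Finset ℕ) := by
    intro i hi j hj hij
    simp only [coe_Ioc, Set.mem_Ioc] at hi hj
    have h1 := T.dep_anc (u := p') (i := i) (by omega)
    have h2 := T.dep_anc (u := p') (i := j) (by omega)
    rw [hij] at h1
    omega
  have d12 : Disjoint I1 I2 := by
    rw [disjoint_left]
    intro x hx1 hx2
    simp only [hI1, hI2, mem_image, mem_range, mem_Ioc] at hx1 hx2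
    obtain ⟨i, hi, rfl⟩ := hx1
    obtain ⟨j, hj, hji⟩ := hx2
    have h1 := T.dep_anc (u := l) (i := i) (by omega)
    have h2 := T.dep_anc (u := p) (i := j) (by omega)
    rw [hji] at h2
    have hij : i = j := by omega
    subst hij
    have := T.le_m (u := l) (v := p) (i := i) (by omega) (by omega) hji.symm
    omega
  have d13 : Disjoint I1 I3 := by
    rw [disjoint_left]
    intro x hx1 hx2
    simp only [hI1, hI3, mem_image, mem_range, mem_Ioc] at hx1 hx2
    obtain ⟨i, hi, rfl⟩ := hx1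
    obtain ⟨j, hj, hji⟩ := hx2
    have h1 := T.dep_anc (u := l) (i := i) (by omega)
    have h2 := T.dep_anc (u := p') (i := j) (by omega)
    rw [hji] at h2
    have hij : i = j := by omega
    subst hij
    apply hlp
    rw [← T.anc_anc (i := 1) (j := i) (by omega) (by omega : i ≤ T.dep l),
      ← T.anc_anc (i := 1) (j := i) (by omega) (by omega : i ≤ T.dep p'), hji]
  have d23 : Disjoint I2 I3 := by
    rw [disjoint_left]
    intro x hx1 hx2
    simp only [hI2, hI3, mem_image, mem_Ioc] at hx1 hx2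
    obtain ⟨i, hi, rfl⟩ := hx1
    obtain ⟨j, hj, hji⟩ := hx2
    have h1 := T.dep_anc (u := p) (i := i) (by omega)
    have h2 := T.dep_anc (u := p') (i := j) (by omega)
    rw [hji] at h2
    have hij : i = j := by omega
    subst hij
    apply hpp
    rw [← T.anc_anc (i := 1) (j := i) (by omega) (by omega : i ≤ T.dep p),
      ← T.anc_anc (i := 1) (j := i) (by omega) (by omega : i ≤ T.dep p'), hji]
  have dI : Disjoint (I1 ∪ I2) I3 := disjoint_union_left.mpr ⟨d13, d23⟩
  have hsub : I1 ∪ I2 ∪ I3 ⊆ S := by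
    intro x hx
    simp only [hI1, hI2, hI3, mem_union, mem_image, mem_range, mem_Ioc] at hx
    rcases hx with (⟨i, hi, rfl⟩ | ⟨i, hi, rfl⟩) | ⟨i, hi, rfl⟩
    · exact hlS i (by omega)
    · exact hpS i (by omega)
    · exact hp'S i (by omega)
  have c1 : I1.card = t + 1 := by
    rw [hI1, card_image_of_injOn inj1, card_range]
  have c2 : I2.card = r1 - q := by
    rw [hI2, card_image_of_injOn inj2, Nat.card_Ioc]
  have c3 : I3.card = r2 := by
    rw [hI3, card_image_of_injOn inj3, Nat.card_Ioc, Nat.sub_zero]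
  have cI : (I1 ∪ I2 ∪ I3).card = t + 1 + (r1 - q) + r2 := by
    rw [card_union_of_disjoint dI, card_union_of_disjoint d12, c1, c2, c3]
  obtain ⟨k, hk⟩ : ∃ k, S.card = t + 1 + (r1 - q) + r2 + k := by
    refine ⟨S.card - (t + 1 + (r1 - q) + r2), ?_⟩
    have := card_le_card hsub
    rw [cI] at this
    omega
  have hck : (S \ (I1 ∪ I2 ∪ I3)).card = k := by
    rw [card_sdiff_of_subset hsub, cI, hk]
    omega
  have s1 : 2 * ∑ u ∈ I1, T.D l u = t * (t + 1) := by
    rw [hI1, sum_image inj1]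
    have : ∑ i ∈ range (t + 1), T.D l (T.anc l i) = ∑ i ∈ range (t + 1), ((t : ℤ) - i) := by
      apply sum_congr rfl
      intro i hi
      rw [mem_range] at hi
      exact T.D_anc_self (by omega)
    rw [this, sum_sub_distrib, mul_sub, sum_range_int]
    simp
    ring
  have s2 : 2 * ∑ u ∈ I2, T.D l u ≤ (r1 - q) * (2 * (t - 2 * q) + r1 + q + 1) := by
    rw [hI2, sum_image inj2, ← sum_Ioc_int q r1 (by omega) ((t : ℤ) - 2 * q)]
    have : ∑ i ∈ Ioc q r1, T.D l (T.anc p i) ≤ ∑ i ∈ Ioc q r1, ((t : ℤ) - 2 * q + i) := by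
      apply sum_le_sum
      intro i hi
      rw [mem_Ioc] at hi
      have := T.D_anc_le (l := l) (p := p) (i := i) (q := q) (by omega) rfl (by omega)
      linarith
    linarith
  have s3 : 2 * ∑ u ∈ I3, T.D l u ≤ r2 * (2 * t + r2 + 1) := by
    rw [hI3, sum_image inj3]
    have h0 := sum_Ioc_int 0 r2 (by omega) (t : ℤ)
    have : ∑ i ∈ Ioc 0 r2, T.D l (T.anc p' i) ≤ ∑ i ∈ Ioc 0 r2, ((t : ℤ) + i) := by
      apply sum_le_sum
      intro i hi
      rw [mem_Ioc] at hi
      exact T.D_anc_le' (l := l) (p := p') (i := i) (by omega)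
    have h2 : ((r2 : ℤ) - (0 : ℕ)) * (2 * (t : ℤ) + r2 + (0 : ℕ) + 1) = r2 * (2 * t + r2 + 1) := by
      push_cast; ring
    rw [h2] at h0
    linarith
  have s4 : ∑ u ∈ S \ (I1 ∪ I2 ∪ I3), T.D l u ≤ k * e := by
    have := sum_le_card_nsmul (S \ (I1 ∪ I2 ∪ I3)) (fun u => T.D l u) e
      (fun u hu => he u (mem_sdiff.mp hu).1)
    rw [hck, nsmul_eq_mul] at this
    exact this
  have stot : ∑ u ∈ S, T.D l u = ∑ u ∈ S \ (I1 ∪ I2 ∪ I3), T.D l u
      + (∑ u ∈ I1, T.D l u + ∑ u ∈ I2, T.D l u + ∑ u ∈ I3, T.D l u) := by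
    rw [← sum_sdiff hsub, sum_union dI, sum_union d12]
  have hcard : (S.card : ℤ) = t + 1 + (r1 - q) + r2 + k := by
    rw [hk]
    push_cast
    rw [Nat.cast_sub (by omega)]
  have hnum := numeric ((r1 : ℤ) - q) ((r2 : ℤ) + q) ((t : ℤ) - q) (by omega) (by omega) (by omega)
    (by omega)
  have hkx : 0 ≤ 2 * (k : ℤ) * ((r1 : ℤ) - q) + k ^ 2 - 2 * k := by
    have h1 : (0 : ℤ) ≤ (r1 : ℤ) - q - 1 := by omega
    have hk0 : (0 : ℤ) ≤ k := by positivity
    have h2 := mul_nonneg hk0 h1
    have h3 := sq_nonneg (k : ℤ)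
    linarith
  rw [stot, hcard]
  rw [he2] at s4 ⊢
  linarith

end RT

end Pool.Agent.Work.MP_4bd310_co
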