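import Pool.Agent.Work.MP_4bd310_co.Tree

set_option autoImplicit false
set_option linter.unusedSectionVars false
set_option linter.unusedVariables false
set_option linter.unusedSimpArgs false

namespace Pool.Agent.Work.MP_4bd310_co

open Finset

lemma sum_abs_last (N : ℕ) : 2 * ∑ i ∈ range N, |(i : ℤ) - N| = N * (N + 1) := by
  have h1 : ∑ i ∈ range N, |(i : ℤ) - N| = ∑ i ∈ range N, ((N : ℤ) - i) := by
    apply sum_congr rfl
    intro i hi
    rw [mem_range] at hi
    rw [abs_of_nonpos (by omega)]
    ring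
  rw [h1, sum_sub_distrib]
  rcases N with _ | N
  · simp
  · rw [mul_sub, sum_range_int]
    simp
    ring

lemma sum_sum_abs (N : ℕ) :
    3 * ∑ i ∈ range N, ∑ j ∈ range N, |(i : ℤ) - j| = (N : ℤ) ^ 3 - N := by
  induction N with
  | zero => simp
  | succ N ih =>
    have h1 : ∑ i ∈ range (N + 1), ∑ j ∈ range (N + 1), |(i : ℤ) - j|
        = ∑ i ∈ range N, ∑ j ∈ range N, |(i : ℤ) - j| + 2 * ∑ i ∈ range N, |(i : ℤ) - N| := by
      rw [sum_range_succ]
      have : ∀ i ∈ range N, ∑ j ∈ range (N + 1), |(i : ℤ) - j|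
          = ∑ j ∈ range N, |(i : ℤ) - j| + |(i : ℤ) - N| := by
        intro i _
        rw [sum_range_succ]
      rw [sum_congr rfl this, sum_add_distrib, sum_range_succ]
      have h2 : ∑ j ∈ range N, |(N : ℤ) - j| = ∑ i ∈ range N, |(i : ℤ) - N| := by
        apply sum_congr rfl
        intro j _
        exact abs_sub_comm _ _
      rw [h2]
      simp
      ring
    rw [h1, mul_add, ih]
    have h3 := sum_abs_last N
    push_cast
    linarith

/-- the polynomial `g` with `⌊g n / 12⌋` the value for the path -/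
def g (n : ℤ) : ℤ := 2 * n ^ 3 - 9 * n ^ 2 + 4 * n + 3

namespace RT

variable {V : Type*} (T : RT V) [DecidableEq V]

/-- configuration of two long branches -/
structure Cfg (a b : V) : Prop where
  h4 : 4 ≤ T.dep a
  hab : T.anc a 1 ≠ T.anc b 1
  hr : ∀ u, T.dep u ≤ T.dep a
  hB : ∀ u, T.anc u 1 ≠ T.anc a 1 → T.dep u ≤ T.dep b
  hle : T.dep b ≤ T.dep a
  hge : T.dep a ≤ T.dep b + 1

/-- tree eccentricity -/
def ecc (a b u : V) : ℤ := T.dep u + (if T.anc u 1 = T.anc a 1 then (T.dep b : ℤ) else T.dep a)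

/-- the chain from a to b through c -/
def ch (a b : V) (i : ℕ) : V :=
  if i < T.dep a then T.anc a (T.dep a - i) else T.anc b (i - T.dep a)

variable {T}

lemma Cfg.c_notA {a b : V} (h : Cfg T a b) : T.anc T.c 1 ≠ T.anc a 1 := by
  intro h1
  have h2 : T.dep (T.anc a 1) = 1 := T.dep_anc (by have := h.h4; omega)
  rw [← h1, T.anc_of_le (by rw [T.dep_c]; omega), T.dep_c] at h2
  omega

lemma anc_one_anc {u : V} {i : ℕ} (h1 : 1 ≤ i) (hi : i ≤ T.dep u) :
    T.anc (T.anc u i) 1 = T.anc u 1 := T.anc_anc h1 hi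

lemma Cfg.dep_ch {a b : V} (h : Cfg T a b) {i : ℕ} (hi : i ≤ T.dep a + T.dep b) :
    T.dep (T.ch a b i) = if i < T.dep a then T.dep a - i else i - T.dep a := by
  unfold ch
  split_ifs with h1
  · exact T.dep_anc (by omega)
  · exact T.dep_anc (by omega)

lemma Cfg.ch_inA {a b : V} (h : Cfg T a b) {i : ℕ} (hi : i ≤ T.dep a + T.dep b) :
    T.anc (T.ch a b i) 1 = T.anc a 1 ↔ i < T.dep a := by
  unfold ch
  split_ifs with h1
  · simp only [h1, iff_true]
    exact T.anc_anc (by omega) (by omega)
  · simp only [h1, iff_false]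
    rcases Nat.eq_or_lt_of_le (not_lt.mp h1) with h2 | h2
    · rw [← h2]
      simp only [le_refl, Nat.sub_self, anc_zero]
      exact h.c_notA
    · rw [T.anc_anc (by omega) (by omega)]
      exact h.hab.symm

lemma Cfg.ch_inj {a b : V} (h : Cfg T a b) :
    Set.InjOn (T.ch a b) (range (T.dep a + T.dep b + 1) : Finset ℕ) := by
  intro i hi j hj hij
  simp only [coe_range, Set.mem_Iio] at hi hj
  have h1 := h.dep_ch (i := i) (by omega)
  have h2 := h.dep_ch (i := j) (by omega)
  have h3 := h.ch_inA (i := i) (by omega)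
  have h4 := h.ch_inA (i := j) (by omega)
  rw [hij] at h1 h3
  have h5 : i < T.dep a ↔ j < T.dep a := h3.symm.trans h4
  rw [h1] at h2
  by_cases hi' : i < T.dep a
  · have hj' := h5.mp hi'
    simp only [hi', hj', if_true] at h2
    omega
  · have hj' : ¬ j < T.dep a := fun hh => hi' (h5.mpr hh)
    simp only [hi', hj', if_false] at h2
    omega

lemma Cfg.D_ch {a b : V} (h : Cfg T a b) {i j : ℕ} (hi : i ≤ T.dep a + T.dep b)
    (hj : j ≤ T.dep a + T.dep b) : T.D (T.ch a b i) (T.ch a b j) ≤ |(i : ℤ) - j| := by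
  wlog hij : i ≤ j generalizing i j
  · rw [T.D_comm, abs_sub_comm]
    exact this hj hi (by omega)
  have h1 := h.dep_ch hi
  have h2 := h.dep_ch hj
  rw [abs_of_nonpos (by omega)]
  by_cases hj' : j < T.dep a
  · have hi' : i < T.dep a := by omega
    -- both on the a-side
    have h3 : T.dep a - j ≤ T.m (T.ch a b i) (T.ch a b j) := by
      simp only [hi', hj', if_true] at h1 h2
      apply T.le_m (by omega) (by omega)
      unfold ch
      simp only [hi', hj', if_true]
      rw [T.anc_anc (by omega) (by omega), T.anc_anc (by omega) (by omega)]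
    simp only [hi', hj', if_true] at h1 h2
    unfold D
    omega
  · by_cases hi' : i < T.dep a
    · simp only [hi', hj', if_true, if_false] at h1 h2
      unfold D
      omega
    · have h3 : i - T.dep a ≤ T.m (T.ch a b i) (T.ch a b j) := by
        simp only [hi', hj', if_false] at h1 h2
        apply T.le_m (by omega) (by omega)
        unfold ch
        simp only [hi', hj', if_false]
        rw [T.anc_anc (by omega) (by omega), T.anc_anc (by omega) (by omega)]
      simp only [hi', hj', if_false] at h1 h2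
      unfold D
      omega

lemma Cfg.ecc_ch {a b : V} (h : Cfg T a b) {i : ℕ} (hi : i ≤ T.dep a + T.dep b) :
    T.ecc a b (T.ch a b i) = if i < T.dep a then (T.dep a : ℤ) + T.dep b - i else i := by
  unfold ecc
  rw [h.dep_ch hi]
  have h1 := h.ch_inA hi
  by_cases hi' : i < T.dep a
  · simp only [hi', if_true]
    rw [if_pos (h1.mpr hi')]
    omega
  · simp only [hi', if_false]
    rw [if_neg (fun hh => hi' (h1.mp hh))]
    omega

variable (T) in
/-- twice (Wiener minus eccentricity) restricted to S -/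
def F2 (a b : V) (S : Finset V) : ℤ := ∑ u ∈ S, ∑ v ∈ S, T.D u v - 2 * ∑ u ∈ S, T.ecc a b u

variable (T) in
/-- the chain as a finset -/
def S0 (a b : V) : Finset V := (range (T.dep a + T.dep b + 1)).image (T.ch a b)

lemma Cfg.card_S0 {a b : V} (h : Cfg T a b) : (T.S0 a b).card = T.dep a + T.dep b + 1 := by
  unfold S0
  rw [card_image_of_injOn h.ch_inj, card_range]

lemma sum_split (r N : ℕ) (hr : r ≤ N) (x : ℤ) :
    2 * ∑ i ∈ range N, (if i < r then x - i else (i : ℤ)) = 2 * r * x - 2 * r * (r - 1) + N * (N - 1) := by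
  induction N, hr using Nat.le_induction with
  | base =>
    have : ∑ i ∈ range r, (if i < r then x - i else (i : ℤ)) = ∑ i ∈ range r, (x - i) := by
      apply sum_congr rfl
      intro i hi
      rw [mem_range] at hi
      simp [hi]
    rw [this, sum_sub_distrib]
    rcases r with _ | r
    · simp
    · rw [mul_sub, sum_range_int]
      simp
      ring
  | succ n hn ih =>
    rw [sum_range_succ, mul_add, ih, if_neg (by omega)]
    push_cast
    ring

lemma Cfg.base {a b : V} (h : Cfg T a b) : 6 * T.F2 a b (T.S0 a b) ≤ g ((T.S0 a b).card) := by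
  rw [h.card_S0]
  unfold F2 S0
  rw [sum_image h.ch_inj, sum_image h.ch_inj]
  set N := T.dep a + T.dep b + 1 with hN
  have h1 : ∑ i ∈ range N, ∑ v ∈ (range N).image (T.ch a b), T.D (T.ch a b i) v
      ≤ ∑ i ∈ range N, ∑ j ∈ range N, |(i : ℤ) - j| := by
    apply sum_le_sum
    intro i hi
    rw [sum_image h.ch_inj]
    apply sum_le_sum
    intro j hj
    rw [mem_range] at hi hj
    exact h.D_ch (by omega) (by omega)
  have h2 : ∑ i ∈ range N, T.ecc a b (T.ch a b i)
      = ∑ i ∈ range N, (if i < T.dep a then ((T.dep a : ℤ) + T.dep b) - i else (i : ℤ)) := by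
    apply sum_congr rfl
    intro i hi
    rw [mem_range] at hi
    exact h.ecc_ch (by omega)
  have h3 := sum_split (T.dep a) N (by omega) ((T.dep a : ℤ) + T.dep b)
  have h4 := sum_sum_abs N
  rw [h2]
  have h5 : (N : ℤ) = T.dep a + T.dep b + 1 := by rw [hN]; push_cast; ring
  rw [h5] at h3 h4 ⊢
  unfold g
  have h6 := h.hle
  have h7 := h.hge
  have h8 : (T.dep a : ℤ) = T.dep b ∨ (T.dep a : ℤ) = T.dep b + 1 := by omega
  generalize (∑ i ∈ range N, if i < T.dep a then ((T.dep a : ℤ) + T.dep b) - i else (i : ℤ)) = X at h3 ⊢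
  generalize (∑ i ∈ range N, ∑ v ∈ (range N).image (T.ch a b), T.D (T.ch a b i) v) = Y at h1 ⊢
  generalize (∑ i ∈ range N, ∑ j ∈ range N, |(i : ℤ) - j|) = Z at h1 h4
  rcases h8 with h8 | h8 <;> rw [h8] at h3 h4 ⊢ <;> linarith

variable (T) in
lemma mem_of_parclosed {S : Finset V} (hS : ∀ u ∈ S, T.par u ∈ S) {u : V} (hu : u ∈ S) (i : ℕ) :
    T.anc u i ∈ S := by
  unfold anc
  generalize T.dep u - i = k
  induction k generalizing u with
  | zero => simpa using hu
  | succ k ih =>
    rw [Function.iterate_succ_apply]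
    exact ih (hS u hu)

lemma Cfg.anc_a_mem {a b : V} (h : Cfg T a b) (i : ℕ) : T.anc a i ∈ T.S0 a b := by
  unfold S0
  rw [mem_image]
  rcases le_or_gt (T.dep a) i with h1 | h1
  · refine ⟨0, by simp, ?_⟩
    unfold ch
    have := h.h4
    rw [if_pos (by omega), T.anc_of_le h1, Nat.sub_zero, anc_dep]
  · refine ⟨T.dep a - i, by rw [mem_range]; omega, ?_⟩
    unfold ch
    rcases Nat.eq_zero_or_pos i with h2 | h2
    · subst h2
      simp
    · rw [if_pos (by omega)]
      congr 1
      omega

lemma Cfg.anc_b_mem {a b : V} (h : Cfg T a b) (i : ℕ) : T.anc b i ∈ T.S0 a b := by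
  unfold S0
  rw [mem_image]
  rcases le_or_gt (T.dep b) i with h1 | h1
  · refine ⟨T.dep a + T.dep b, by simp, ?_⟩
    unfold ch
    rw [if_neg (by omega), T.anc_of_le h1, Nat.add_sub_cancel_left, anc_dep]
  · refine ⟨T.dep a + i, by rw [mem_range]; omega, ?_⟩
    unfold ch
    rw [if_neg (by omega)]
    congr 1
    omega

lemma Cfg.mem_S0 {a b : V} (h : Cfg T a b) {u : V} :
    u ∈ T.S0 a b ↔ (T.anc a (T.dep u) = u ∨ T.anc b (T.dep u) = u) := by
  constructor
  · intro hu
    unfold S0 at hu
    rw [mem_image] at hu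
    obtain ⟨i, hi, rfl⟩ := hu
    rw [mem_range] at hi
    rw [h.dep_ch (by omega)]
    by_cases h1 : i < T.dep a
    · left
      simp only [ch, h1, if_true]
    · right
      simp only [ch, h1, if_false]
  · rintro (h1 | h1)
    · rw [← h1]; exact h.anc_a_mem _
    · rw [← h1]; exact h.anc_b_mem _

lemma Cfg.S0_par {a b : V} (h : Cfg T a b) : ∀ u ∈ T.S0 a b, T.par u ∈ T.S0 a b := by
  intro u hu
  rcases Nat.eq_zero_or_pos (T.dep u) with h0 | h0
  · have : u = T.c := T.eq_c u h0
    subst this
    rw [T.par_c]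
    exact hu
  · rw [h.mem_S0] at hu
    have h1 := T.par_eq_anc (u := u) h0
    rcases hu with hu | hu
    · have h2 : T.dep u ≤ T.dep a := h.hr u
      have h3 := T.par_anc (u := a) (i := T.dep u - 1) (by omega)
      have h4 : T.dep u - 1 + 1 = T.dep u := by omega
      rw [h4, hu] at h3
      rw [h3]
      exact h.anc_a_mem _
    · have h2 : T.dep u ≤ T.dep b := by
        by_contra hcon
        have h5 : T.anc b (T.dep u) = b := T.anc_of_le (by omega)
        rw [h5] at hu
        rw [hu] at hcon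
        omega
      have h3 := T.par_anc (u := b) (i := T.dep u - 1) (by omega)
      have h4 : T.dep u - 1 + 1 = T.dep u := by omega
      rw [h4, hu] at h3
      rw [h3]
      exact h.anc_b_mem _

lemma Cfg.D_le_ecc {a b : V} (h : Cfg T a b) (l u : V) : T.D l u ≤ T.ecc a b l := by
  unfold ecc
  by_cases hl : T.anc l 1 = T.anc a 1
  · rw [if_pos hl]
    by_cases hu : T.anc u 1 = T.anc a 1
    · -- both in A
      have hd : ∀ v, T.anc v 1 = T.anc a 1 → 1 ≤ T.dep v := by
        intro v hv
        by_contra hcon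
        have h0 : T.dep v = 0 := by omega
        have := T.eq_c v h0
        subst this
        exact h.c_notA hv
      have h1 := T.le_m (u := l) (v := u) (i := 1) (hd l hl) (hd u hu) (hl.trans hu.symm)
      have h2 := h.hr u
      have h3 := h.hge
      unfold D
      omega
    · have h1 := h.hB u hu
      have h2 := T.D_le_add l u
      omega
  · rw [if_neg hl]
    have h1 := h.hr u
    have h2 := T.D_le_add l u
    omega

/-- the increment when a leaf is added -/
lemma Cfg.step {a b : V} (h : Cfg T a b) {S : Finset V} (hS0 : T.S0 a b ⊆ S)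
    (hS : ∀ u ∈ S, T.par u ∈ S) {l : V} (hl : l ∈ S) (hl0 : l ∉ T.S0 a b) :
    2 * (∑ u ∈ S, T.D l u - T.ecc a b l) < (S.card : ℤ) ^ 2 - 4 * S.card + 2 := by
  have hr := h.hr l
  have h4 := h.h4
  have hle := h.hle
  have hge := h.hge
  rw [h.mem_S0, not_or] at hl0
  by_cases hA : T.anc l 1 = T.anc a 1
  · -- in branch A
    have hd : 1 ≤ T.dep l := by
      by_contra hcon
      have h0 : T.dep l = 0 := by omega
      have := T.eq_c l h0
      subst this
      exact h.c_notA hA
    have hm1 : 1 ≤ T.m l a := T.le_m (by omega) (by omega) hA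
    have hm2 : T.m l a < T.dep l := by
      rcases Nat.lt_or_ge (T.m l a) (T.dep l) with h1 | h1
      · exact h1
      · exfalso
        have h2 := T.m_le_left l a
        have h3 : T.m l a = T.dep l := by omega
        have h5 := T.m_spec l a
        rw [h3, anc_dep] at h5
        exact hl0.1 h5.symm
    apply T.sum_D_le S l a b (T.ecc a b l)
    · intro i _; exact T.mem_of_parclosed hS hl i
    · intro i _; exact hS0 (h.anc_a_mem i)
    · intro i _; exact hS0 (h.anc_b_mem i)
    · exact h.hab
    · rw [hA]; exact h.hab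
    · exact hm2
    · omega
    · exact hr
    · omega
    · intro u _; exact h.D_le_ecc l u
    · unfold ecc; rw [if_pos hA]
    · omega
    · omega
  · have hd : T.dep l ≤ T.dep b := h.hB l hA
    have hm2 : T.m l b < T.dep l := by
      rcases Nat.lt_or_ge (T.m l b) (T.dep l) with h1 | h1
      · exact h1
      · exfalso
        have h2 := T.m_le_left l b
        have h3 : T.m l b = T.dep l := by omega
        have h5 := T.m_spec l b
        rw [h3, anc_dep] at h5
        exact hl0.2 h5.symm
    apply T.sum_D_le S l b a (T.ecc a b l)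
    · intro i _; exact T.mem_of_parclosed hS hl i
    · intro i _; exact hS0 (h.anc_b_mem i)
    · intro i _; exact hS0 (h.anc_a_mem i)
    · exact h.hab.symm
    · exact hA
    · exact hm2
    · omega
    · exact hd
    · omega
    · intro u _; exact h.D_le_ecc l u
    · unfold ecc; rw [if_neg hA]
    · omega
    · omega

lemma F2_erase {a b : V} {S : Finset V} {l : V} (hl : l ∈ S) :
    T.F2 a b S = T.F2 a b (S.erase l) + 2 * (∑ u ∈ S, T.D l u - T.ecc a b l) := by
  unfold F2
  have h1 : ∑ u ∈ S, ∑ v ∈ S, T.D u v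
      = ∑ u ∈ S.erase l, ∑ v ∈ S.erase l, T.D u v + 2 * ∑ u ∈ S, T.D l u := by
    rw [← add_sum_erase S _ hl]
    have h2 : ∀ u ∈ S.erase l, ∑ v ∈ S, T.D u v = T.D u l + ∑ v ∈ S.erase l, T.D u v := by
      intro u _
      rw [← add_sum_erase S _ hl]
    rw [sum_congr rfl h2, sum_add_distrib]
    have h3 : ∑ u ∈ S, T.D l u = ∑ u ∈ S.erase l, T.D u l := by
      rw [← add_sum_erase S _ hl, T.D_self, zero_add]
      apply sum_congr rfl
      intro u _
      exact T.D_comm l u
    rw [h3]
    ring
  have h2 : ∑ u ∈ S, T.ecc a b u = ∑ u ∈ S.erase l, T.ecc a b u + T.ecc a b l := by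
    rw [← add_sum_erase S _ hl]
    ring
  rw [h1, h2]
  ring

lemma Cfg.main {a b : V} (h : Cfg T a b) (k : ℕ) : ∀ S : Finset V, T.S0 a b ⊆ S →
    (∀ u ∈ S, T.par u ∈ S) → S.card = (T.S0 a b).card + k →
    6 * T.F2 a b S + 9 * k ≤ g (S.card) := by
  induction k with
  | zero =>
    intro S hS0 _ hc
    have : S = T.S0 a b := (eq_of_subset_of_card_le hS0 (by omega)).symm
    subst this
    have := h.base
    simpa using this
  | succ k ih =>
    intro S hS0 hS hc
    have hne : (S \ T.S0 a b).Nonempty := by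
      rw [← card_pos, card_sdiff_of_subset hS0]
      omega
    obtain ⟨l, hl, hmax⟩ := exists_max_image (S \ T.S0 a b) T.dep hne
    rw [mem_sdiff] at hl
    have hcard : (S.erase l).card = (T.S0 a b).card + k := by
      rw [card_erase_of_mem hl.1]
      omega
    have hsub : T.S0 a b ⊆ S.erase l := by
      intro x hx
      rw [mem_erase]
      refine ⟨?_, hS0 hx⟩
      rintro rfl
      exact hl.2 hx
    have hcl : ∀ u ∈ S.erase l, T.par u ∈ S.erase l := by
      intro u hu
      rw [mem_erase] at hu ⊢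
      refine ⟨?_, hS u hu.2⟩
      intro hpar
      by_cases hu0 : u ∈ T.S0 a b
      · exact hl.2 (hpar ▸ h.S0_par u hu0)
      · have h1 := hmax u (mem_sdiff.mpr ⟨hu.2, hu0⟩)
        have h2 := T.dep_par u
        rw [hpar] at h2
        have h3 : T.dep u = 0 := by omega
        have h4 := T.eq_c u h3
        rw [h4, T.par_c] at hpar
        exact hu.1 (h4.trans hpar)
    have h1 := ih (S.erase l) hsub hcl hcard
    have h2 := h.step hS0 hS hl.1 hl.2
    rw [F2_erase hl.1]
    have h3 : ((S.erase l).card : ℤ) = S.card - 1 := by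
      rw [card_erase_of_mem hl.1]
      have : 0 < S.card := card_pos.mpr ⟨l, hl.1⟩
      omega
    rw [h3] at h1
    unfold g at h1 ⊢
    push_cast
    generalize (S.card : ℤ) = s at h1 h2 ⊢
    generalize T.F2 a b (S.erase l) = x at h1 ⊢
    generalize ∑ u ∈ S, T.D l u - T.ecc a b l = y at h2 ⊢
    have h5 : (s - 1) ^ 3 = s ^ 3 - 3 * s ^ 2 + 3 * s - 1 := by ring
    have h6 : (s - 1) ^ 2 = s ^ 2 - 2 * s + 1 := by ring
    rw [h5, h6] at h1
    omega

end RT

end Pool.Agent.Work.MP_4bd310_co
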